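import Mathlib

/-!
Smith normal form of an integer matrix, in factorised form.
-/

set_option autoImplicit false

open scoped BigOperators
open Matrix

namespace Pool.H16.L2

/-- Every integer matrix factors as `X' * diag a * Y` with `a` nowhere zero, `X'` left invertible
and `Y` right invertible over the integers. -/
theorem exists_snf {S T : Type} [Fintype S] [Fintype T] [DecidableEq S] [DecidableEq T]
    (M : Matrix S T ℤ) :
    ∃ (n : ℕ) (a : Fin n → ℤ) (X : Matrix (Fin n) S ℤ) (X' : Matrix S (Fin n) ℤ)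
      (Y : Matrix (Fin n) T ℤ) (Y' : Matrix T (Fin n) ℤ),
      (∀ j, a j ≠ 0) ∧ X * X' = 1 ∧ Y * Y' = 1 ∧ M = X' * Matrix.diagonal a * Y := by
  classical
  set N : Submodule ℤ (T → ℤ) := LinearMap.range (M.vecMulLinear) with hN
  obtain ⟨n, bM, bN, f, a, snf⟩ := N.smithNormalForm (Pi.basisFun ℤ T)
  have hrow : ∀ s, M s ∈ N := by
    intro s
    refine ⟨Pi.single s 1, ?_⟩
    rw [Matrix.vecMulLinear_apply, Matrix.single_one_vecMul]
    rfl
  have hx : ∀ j, ∃ x : S → ℤ, Matrix.vecMul x M = (bN j : T → ℤ) := by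
    intro j
    obtain ⟨x, hx⟩ := (bN j).2
    exact ⟨x, hx⟩
  choose x hx using hx
  refine ⟨n, a, Matrix.of x, Matrix.of fun s j => bN.repr ⟨M s, hrow s⟩ j,
    Matrix.of fun j => bM (f j), Matrix.of fun t j => bM.repr (Pi.single t 1) (f j), ?_, ?_, ?_, ?_⟩
  · intro j h0
    have h1 := snf j
    rw [h0, zero_smul] at h1
    exact bN.ne_zero j (Subtype.ext h1)
  · ext i j
    rw [Matrix.mul_apply]
    simp only [Matrix.of_apply]
    have h1 : (∑ s, x i s • (⟨M s, hrow s⟩ : N)) = bN i := by
      apply Subtype.ext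
      rw [← hx i]
      ext t
      simp [Matrix.vecMul, dotProduct]
    have h2 := congrArg (fun v => bN.repr v j) h1
    simp only [map_sum, map_smul, Finsupp.coe_finsetSum, Finset.sum_apply, Finsupp.coe_smul,
      Pi.smul_apply, smul_eq_mul, Module.Basis.repr_self] at h2
    rw [h2, Matrix.one_apply, Finsupp.single_apply]
  · ext i j
    rw [Matrix.mul_apply]
    simp only [Matrix.of_apply]
    have h1 : (∑ t, (bM (f i)) t • (Pi.single t (1 : ℤ) : T → ℤ)) = bM (f i) := by
      ext t
      simp [Finset.sum_apply, Pi.single_apply]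
    have h2 := congrArg (fun v => bM.repr v (f j)) h1
    simp only [map_sum, map_smul, Finsupp.coe_finsetSum, Finset.sum_apply, Finsupp.coe_smul,
      Pi.smul_apply, smul_eq_mul, Module.Basis.repr_self] at h2
    rw [h2, Matrix.one_apply, Finsupp.single_apply]
    simp [f.injective.eq_iff]
  · ext s t
    have h1 := congrArg (fun v : N => (v : T → ℤ) t) (bN.sum_repr ⟨M s, hrow s⟩)
    simp only [Submodule.coe_sum, Submodule.coe_smul, Finset.sum_apply, Pi.smul_apply,
      smul_eq_mul] at h1
    rw [← h1, Matrix.mul_apply]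
    refine Finset.sum_congr rfl fun j _ => ?_
    rw [Matrix.mul_diagonal, snf j]
    simp [mul_assoc]

end Pool.H16.L2
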