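import Pool.Agent.H3.L2.Tensor
import Pool.Agent.H16.L2.Snf

/-!
Betti numbers of integer based complexes in terms of Smith normal forms.
-/

set_option autoImplicit false

open scoped BigOperators
open Matrix Pool.H3.L2

noncomputable section

namespace Pool.H16.L2

section prj

variable {R : Type} [Ring R]

/-- Projection onto the degree `k` part. -/
def prj (C : BCx R) (k : ℕ) : Matrix C.S C.S R := Matrix.diagonal fun s => if C.deg s = k then 1 else 0

theorem prj_mul_prj (C : BCx R) (k : ℕ) : prj C k * prj C k = prj C k := by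
  rw [prj, Matrix.diagonal_mul_diagonal]
  congr 1
  ext s
  split_ifs <;> simp

theorem prj_mul_prj_ne (C : BCx R) {k l : ℕ} (h : k ≠ l) : prj C k * prj C l = 0 := by
  rw [prj, prj, Matrix.diagonal_mul_diagonal, ← Matrix.diagonal_zero]
  congr 1
  ext s
  by_cases h1 : C.deg s = k
  · simp [h1, h]
  · simp [h1]

theorem prj_mul_D (C : BCx R) (k : ℕ) : prj C (k + 1) * C.D = C.D * prj C k := by
  ext s t
  rw [prj, prj, Matrix.diagonal_mul, Matrix.mul_diagonal]
  by_cases h : C.D s t = 0
  · simp [h]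
  · have := C.deg_D s t h
    by_cases h1 : C.deg t = k
    · simp [this, h1]
    · have h2 : C.deg s ≠ k + 1 := by omega
      simp [h1, h2]

theorem prj_zero_mul_D (C : BCx R) : prj C 0 * C.D = 0 := by
  ext s t
  rw [prj, Matrix.diagonal_mul]
  by_cases h : C.D s t = 0
  · simp [h]
  · have := C.deg_D s t h
    have h2 : C.deg s ≠ 0 := by omega
    simp [h2]

theorem D_mul_prj_mul_D (C : BCx R) (k : ℕ) : C.D * prj C k * C.D = 0 := by
  rw [← prj_mul_D, Matrix.mul_assoc, C.D_D, Matrix.mul_zero]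

theorem prj_mul_sgn (C : BCx R) (k : ℕ) : prj C k * sgnM R C.deg = (-1 : R) ^ k • prj C k := by
  rw [prj, sgnM, Matrix.diagonal_mul_diagonal, ← Matrix.diagonal_smul]
  congr 1
  ext s
  by_cases h : C.deg s = k
  · simp [h]
  · simp [h]

theorem sgn_mul_prj (C : BCx R) (k : ℕ) : sgnM R C.deg * prj C k = (-1 : R) ^ k • prj C k := by
  rw [prj, sgnM, Matrix.diagonal_mul_diagonal, ← Matrix.diagonal_smul]
  congr 1
  ext s
  by_cases h : C.deg s = k
  · simp [h]
  · simp [h]

end prj

theorem diag_cancel {S : Type} {n : ℕ} {a : Fin n → ℤ} (ha : ∀ j, a j ≠ 0)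
    {A B : Matrix (Fin n) S ℤ} (h : Matrix.diagonal a * A = Matrix.diagonal a * B) : A = B := by
  ext i j
  have := congrFun (congrFun h i) j
  rw [Matrix.diagonal_mul, Matrix.diagonal_mul] at this
  exact mul_left_cancel₀ (ha i) this

theorem diag_cancel' {S : Type} {n : ℕ} {a : Fin n → ℤ} (ha : ∀ j, a j ≠ 0)
    {A B : Matrix S (Fin n) ℤ} (h : A * Matrix.diagonal a = B * Matrix.diagonal a) : A = B := by
  ext i j
  have := congrFun (congrFun h i) j
  rw [Matrix.mul_diagonal, Matrix.mul_diagonal] at this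
  exact mul_right_cancel₀ (ha j) this

/-- The rank of an integer matrix over a field from a Smith normal form. -/
theorem rank_of_snf (K : Type) [Field K] [DecidableEq K] {S T : Type} [Fintype S] [Fintype T]
    [DecidableEq S] [DecidableEq T] {n : ℕ} (a : Fin n → ℤ) (X : Matrix (Fin n) S ℤ)
    (X' : Matrix S (Fin n) ℤ) (Y : Matrix (Fin n) T ℤ) (Y' : Matrix T (Fin n) ℤ)
    (hX : X * X' = 1) (hY : Y * Y' = 1) :
    ((X' * Matrix.diagonal a * Y).map (Int.castRingHom K)).rank =
      Fintype.card {j : Fin n // (a j : K) ≠ 0} := by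
  set f := Int.castRingHom K with hf
  have hX1 : X.map f * X'.map f = 1 := by
    rw [← Matrix.map_mul, hX, Matrix.map_one _ (map_zero f) (map_one f)]
  have hY1 : Y.map f * Y'.map f = 1 := by
    rw [← Matrix.map_mul, hY, Matrix.map_one _ (map_zero f) (map_one f)]
  have hd : (Matrix.diagonal a).map f = Matrix.diagonal fun j => (a j : K) := by
    rw [Matrix.diagonal_map (map_zero f)]
    rfl
  have hrk : (Matrix.diagonal fun j => (a j : K)).rank =
      Fintype.card {j : Fin n // (a j : K) ≠ 0} := by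
    rw [Matrix.rank_diagonal]
  rw [← hrk, Matrix.map_mul, Matrix.map_mul, hd]
  apply le_antisymm
  · exact (Matrix.rank_mul_le_left _ _).trans (Matrix.rank_mul_le_right _ _)
  · have h1 : (Matrix.diagonal fun j => (a j : K)) =
        X.map f * (X'.map f * (Matrix.diagonal fun j => (a j : K)) * Y.map f) * Y'.map f := by
      have : X.map f * (X'.map f * (Matrix.diagonal fun j => (a j : K)) * Y.map f) * Y'.map f =
        (X.map f * X'.map f) * (Matrix.diagonal fun j => (a j : K)) * (Y.map f * Y'.map f) := by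
        simp only [Matrix.mul_assoc]
      rw [this, hX1, hY1, Matrix.one_mul, Matrix.mul_one]
    conv_lhs => rw [h1]
    exact (Matrix.rank_mul_le_left _ _).trans (Matrix.rank_mul_le_right _ _)

section betti

variable {K : Type} [Field K]

/-- Number of basis elements of degree `k`. -/
def cells {R : Type} [Ring R] (C : BCx R) (k : ℕ) : ℕ := Fintype.card {s : C.S // C.deg s = k}

/-- Vectors supported in degree `k`. -/
def Wk (C : BCx K) (k : ℕ) : Submodule K (C.S → K) where
  carrier := {v | ∀ s, C.deg s ≠ k → v s = 0}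
  add_mem' := by
    intro a b ha hb s hs
    simp [ha s hs, hb s hs]
  zero_mem' := fun _ _ => rfl
  smul_mem' := by
    intro c a ha s hs
    simp [ha s hs]

def WkEquiv (C : BCx K) (k : ℕ) : Wk C k ≃ₗ[K] ({s : C.S // C.deg s = k} → K) where
  toFun v s := v.1 s.1
  invFun w := ⟨fun s => if h : C.deg s = k then w ⟨s, h⟩ else 0, fun s hs => by simp [hs]⟩
  map_add' := fun _ _ => rfl
  map_smul' := fun _ _ => rfl
  left_inv := by
    intro v
    apply Subtype.ext
    ext s
    by_cases h : C.deg s = k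
    · simp [h]
    · simp [h, v.2 s h]
  right_inv := by
    intro w
    ext s
    simp [s.2]

theorem finrank_Wk (C : BCx K) (k : ℕ) : Module.finrank K (Wk C k) = cells C k := by
  rw [(WkEquiv C k).finrank_eq, Module.finrank_fintype_fun_eq_card]
  rfl

theorem range_prj (C : BCx K) (k : ℕ) (v : C.S → K) (hv : v ∈ Wk C k) :
    Matrix.vecMul v (prj C k) = v := by
  ext s
  rw [prj, Matrix.vecMul_diagonal]
  by_cases h : C.deg s = k
  · simp [h]
  · simp [h, hv s h]

theorem vecMul_prj_mem (C : BCx K) (k : ℕ) (v : C.S → K) :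
    Matrix.vecMul v (prj C k) ∈ Wk C k := by
  intro s hs
  rw [prj, Matrix.vecMul_diagonal]
  simp [hs]

/-- The differential restricted to degree `k`. -/
def dk (C : BCx K) (k : ℕ) : Wk C k →ₗ[K] (C.S → K) := C.D.vecMulLinear.domRestrict (Wk C k)

theorem range_dk (C : BCx K) (k : ℕ) :
    LinearMap.range (dk C k) = LinearMap.range (prj C k * C.D).vecMulLinear := by
  ext w
  constructor
  · rintro ⟨v, rfl⟩
    refine ⟨v.1, ?_⟩
    rw [Matrix.vecMulLinear_apply, ← Matrix.vecMul_vecMul, range_prj C k v.1 v.2]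
    rfl
  · rintro ⟨v, rfl⟩
    refine ⟨⟨_, vecMul_prj_mem C k v⟩, ?_⟩
    rw [Matrix.vecMulLinear_apply, ← Matrix.vecMul_vecMul]
    rfl

theorem finrank_range_dk (C : BCx K) (k : ℕ) :
    Module.finrank K (LinearMap.range (dk C k)) = (prj C k * C.D).rank := by
  rw [range_dk, range_vecMulLinear, Matrix.rank_eq_finrank_span_row]

theorem Bk_eq (C : BCx K) (k : ℕ) : C.Bk k = LinearMap.range (dk C (k + 1)) := by
  ext w
  constructor
  · rintro ⟨v, hv, rfl⟩
    exact ⟨⟨v, hv⟩, rfl⟩
  · rintro ⟨v, rfl⟩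
    exact ⟨v.1, v.2, rfl⟩

theorem Zk_eq (C : BCx K) (k : ℕ) : C.Zk k = (LinearMap.ker (dk C k)).map (Wk C k).subtype := by
  ext w
  constructor
  · rintro ⟨hw, hw'⟩
    exact ⟨⟨w, hw⟩, hw', rfl⟩
  · rintro ⟨v, hv, rfl⟩
    exact ⟨v.2, hv⟩

theorem finrank_Zk (C : BCx K) (k : ℕ) :
    Module.finrank K (C.Zk k) + (prj C k * C.D).rank = cells C k := by
  rw [Zk_eq, ← (Submodule.equivMapOfInjective (Wk C k).subtype (Submodule.injective_subtype _)
      (LinearMap.ker (dk C k))).finrank_eq, add_comm, ← finrank_range_dk, ← finrank_Wk,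
    LinearMap.finrank_range_add_finrank_ker]

theorem finrank_Bk (C : BCx K) (k : ℕ) :
    Module.finrank K (C.Bk k) = (C.D * prj C k).rank := by
  rw [Bk_eq, finrank_range_dk, prj_mul_D]

theorem Bk_le_Zk {R : Type} [CommRing R] (C : BCx R) (k : ℕ) : C.Bk k ≤ C.Zk k := by
  rintro v ⟨w, hw, rfl⟩
  refine ⟨?_, ?_⟩
  · intro s hs
    refine Finset.sum_eq_zero fun t _ => ?_
    by_cases h : C.D t s = 0
    · simp [h]
    · have h1 := C.deg_D t s h
      rw [hw t (by omega), zero_mul]
  · rw [Matrix.vecMul_vecMul, C.D_D, Matrix.vecMul_zero]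

theorem finrank_Hk (C : BCx K) (k : ℕ) :
    Module.finrank K (C.Hk k) + (prj C k * C.D).rank + (C.D * prj C k).rank = cells C k := by
  have h1 := Submodule.finrank_quotient_add_finrank ((C.Bk k).submoduleOf (C.Zk k))
  have h2 : Module.finrank K ↥((C.Bk k).submoduleOf (C.Zk k)) = Module.finrank K (C.Bk k) :=
    (Submodule.submoduleOfEquivOfLe (Bk_le_Zk C k)).finrank_eq
  rw [h2, finrank_Bk] at h1
  have h3 := finrank_Zk C k
  change Module.finrank K (↥(C.Zk k) ⧸ (C.Bk k).submoduleOf (C.Zk k)) + _ + _ = _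
  omega

theorem prj_map (C : BCx ℤ) (k : ℕ) :
    prj (C.map (Int.castRingHom K)) k = (prj C k).map (Int.castRingHom K) := by
  rw [prj, prj, Matrix.diagonal_map (map_zero _)]
  congr 1
  ext s
  change (if C.deg s = k then (1 : K) else 0) = Int.castRingHom K (if C.deg s = k then 1 else 0)
  split_ifs <;> simp

theorem betti_eq (C : BCx ℤ) (k : ℕ) :
    C.betti K k + ((prj C k * C.D).map (Int.castRingHom K)).rank +
      ((C.D * prj C k).map (Int.castRingHom K)).rank = cells C k := by
  have h := finrank_Hk (C.map (Int.castRingHom K)) k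
  rw [prj_map] at h
  have h1 : (C.map (Int.castRingHom K)).D = C.D.map (Int.castRingHom K) := rfl
  rw [h1] at h
  rw [Matrix.map_mul, Matrix.map_mul]
  exact h

end betti

end Pool.H16.L2
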