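import Pool.Agent.H16.L2.PT

/-!
Existence of elementary torsion summands and of the free summands.
-/

set_option autoImplicit false

open scoped BigOperators
open Matrix Pool.H3.L2

noncomputable section

namespace Pool.H16.L2

theorem exists_hsnf {S T : Type} [Fintype S] [Fintype T] [DecidableEq S] [DecidableEq T]
    (M : Matrix S T ℤ) (e : Matrix S S ℤ) (f : Matrix T T ℤ) (he : e * M = M) (hf : M * f = M)
    (hee : e * e = e) (hff : f * f = f) :
    ∃ (n : ℕ) (a : Fin n → ℤ) (X : Matrix (Fin n) S ℤ) (X' : Matrix S (Fin n) ℤ)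
      (Y : Matrix (Fin n) T ℤ) (Y' : Matrix T (Fin n) ℤ),
      (∀ j, a j ≠ 0) ∧ X * X' = 1 ∧ Y * Y' = 1 ∧ M = X' * Matrix.diagonal a * Y ∧
      X * e = X ∧ e * X' = X' ∧ Y * f = Y ∧ f * Y' = Y' := by
  obtain ⟨n, a, X, X', Y, Y', ha, hX, hY, hM⟩ := exists_snf M
  have h1 : Matrix.diagonal a * Y = X * M := by
    rw [hM, ← Matrix.mul_assoc, ← Matrix.mul_assoc, hX, Matrix.one_mul]
  have h2 : X' * Matrix.diagonal a = M * Y' := by
    rw [hM, Matrix.mul_assoc, Matrix.mul_assoc, hY, Matrix.mul_one]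
  have h3 : Y * f = Y := by
    apply diag_cancel ha
    rw [← Matrix.mul_assoc, h1, Matrix.mul_assoc, hf]
  have h4 : e * X' = X' := by
    apply diag_cancel' ha
    rw [Matrix.mul_assoc, h2, ← Matrix.mul_assoc, he]
  refine ⟨n, a, X * e, X', Y, f * Y', ha, ?_, ?_, hM, ?_, h4, h3, ?_⟩
  · rw [Matrix.mul_assoc, h4, hX]
  · rw [← Matrix.mul_assoc, h3, hY]
  · rw [Matrix.mul_assoc, hee]
  · rw [← Matrix.mul_assoc, hff]

theorem supp_row {A : BCx ℤ} {k : ℕ} {ι : Type} {X : Matrix ι A.S ℤ} (h : X * prj A k = X)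
    (i : ι) (s : A.S) (hs : A.deg s ≠ k) : X i s = 0 := by
  have := congrFun (congrFun h i) s
  rw [prj, Matrix.mul_diagonal, if_neg hs, mul_zero] at this
  exact this.symm

theorem supp_col {A : BCx ℤ} {k : ℕ} {ι : Type} {X : Matrix A.S ι ℤ} (h : prj A k * X = X)
    (i : ι) (s : A.S) (hs : A.deg s ≠ k) : X s i = 0 := by
  have := congrFun (congrFun h s) i
  rw [prj, Matrix.diagonal_mul, if_neg hs, zero_mul] at this
  exact this.symm

theorem exists_pt_one (A : BCx ℤ) (p : ℕ) [hp : Fact p.Prime] (k : ℕ) :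
    ∃ n t : ℕ, HasPT p A k t ∧ ((A.D * prj A k).map (Int.castRingHom ℝ)).rank = n ∧
      ((A.D * prj A k).map (Int.castRingHom (ZMod p))).rank + t = n := by
  classical
  have he : prj A (k + 1) * (A.D * prj A k) = A.D * prj A k := by
    rw [← Matrix.mul_assoc, prj_mul_D, Matrix.mul_assoc, prj_mul_prj]
  have hf : A.D * prj A k * prj A k = A.D * prj A k := by
    rw [Matrix.mul_assoc, prj_mul_prj]
  obtain ⟨n, a, X, X', Y, Y', ha, hX, hY, hM, hXe, heX, hYf, hfY⟩ :=
    exists_hsnf (A.D * prj A k) (prj A (k + 1)) (prj A k) he hf (prj_mul_prj _ _)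
      (prj_mul_prj _ _)
  have h1 : X * A.D = Matrix.diagonal a * Y := by
    rw [← hXe, Matrix.mul_assoc, prj_mul_D, hM, ← Matrix.mul_assoc, ← Matrix.mul_assoc, hX,
      Matrix.one_mul]
  have h2 : A.D * Y' = X' * Matrix.diagonal a := by
    rw [← hfY, ← Matrix.mul_assoc, hM, Matrix.mul_assoc, Matrix.mul_assoc, hY, Matrix.mul_one]
  refine ⟨n, Fintype.card {j : Fin n // (p : ℤ) ∣ a j}, ?_, ?_, ?_⟩
  · refine ⟨{j : Fin n // (p : ℤ) ∣ a j}, inferInstance, inferInstance, fun j => a j.1,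
      fun j => X j.1, fun j s => X' s j.1, fun j => Y j.1, fun j s => Y' s j.1, rfl,
      fun j => ⟨ha j.1, j.2⟩, ?_⟩
    constructor
    · intro i j
      have := congrFun (congrFun hX i.1) j.1
      rw [Matrix.mul_apply, Matrix.one_apply] at this
      simp only [Subtype.ext_iff]
      exact this
    · intro i j
      have := congrFun (congrFun hY i.1) j.1
      rw [Matrix.mul_apply, Matrix.one_apply] at this
      simp only [Subtype.ext_iff]
      exact this
    · intro i
      have := congrFun h1 i.1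
      ext s
      have h3 := congrFun this s
      rw [Matrix.diagonal_mul, Matrix.mul_apply] at h3
      exact h3
    · intro i
      ext s
      have h3 := congrFun (congrFun h2 s) i.1
      rw [Matrix.mul_diagonal, Matrix.mul_apply] at h3
      simp only [Pi.smul_apply, smul_eq_mul]
      rw [mul_comm]
      exact h3
    · exact fun i s hs => supp_row hXe i.1 s hs
    · exact fun i s hs => supp_col heX i.1 s hs
    · exact fun i s hs => supp_row hYf i.1 s hs
    · exact fun i s hs => supp_col hfY i.1 s hs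
  · rw [hM, rank_of_snf ℝ a X X' Y Y' hX hY]
    rw [Fintype.card_of_subtype Finset.univ (by simpa using ha), Finset.card_univ,
      Fintype.card_fin]
  · rw [hM, rank_of_snf (ZMod p) a X X' Y Y' hX hY]
    have h5 : Fintype.card {j : Fin n // (p : ℤ) ∣ a j} =
        Fintype.card {j : Fin n // ¬ ((a j : ZMod p) ≠ 0)} := by
      apply Fintype.card_congr
      refine Equiv.subtypeEquivRight fun j => ?_
      rw [not_not, ZMod.intCast_zmod_eq_zero_iff_dvd]
    have h6 := Fintype.card_subtype_compl (fun j : Fin n => (a j : ZMod p) ≠ 0)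
    rw [Fintype.card_fin] at h6
    rw [h5, h6]
    have := Fintype.card_subtype_le (fun j : Fin n => (a j : ZMod p) ≠ 0)
    rw [Fintype.card_fin] at this
    omega

/-- Betti numbers over `ZMod p`. -/
theorem exists_tf (A : BCx ℤ) (p : ℕ) [hp : Fact p.Prime] :
    ∃ tf : ℕ → ℕ, (∀ k, HasPT p A k (tf k)) ∧
      (∀ k, A.betti (ZMod p) (k + 1) = A.betti ℝ (k + 1) + tf (k + 1) + tf k) ∧
      A.betti (ZMod p) 0 = A.betti ℝ 0 + tf 0 := by
  choose n tf h1 h2 h3 using exists_pt_one A p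
  refine ⟨tf, h1, ?_, ?_⟩
  · intro k
    have e1 := betti_eq (K := ℝ) A (k + 1)
    have e2 := betti_eq (K := ZMod p) A (k + 1)
    rw [prj_mul_D] at e1 e2
    have := h2 k
    have := h2 (k + 1)
    have := h3 k
    have := h3 (k + 1)
    omega
  · have e1 := betti_eq (K := ℝ) A 0
    have e2 := betti_eq (K := ZMod p) A 0
    rw [prj_zero_mul_D, Matrix.map_zero _ (map_zero _), Matrix.rank_zero] at e1 e2
    have := h2 0
    have := h3 0
    omega

/-- Free summand: `b` cycles spanning a direct summand of rank equal to the Betti number. -/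
theorem exists_free (A : BCx ℤ) (l : ℕ) :
    ∃ (u u' : Fin (A.betti ℝ l) → A.S → ℤ),
      (∀ i j, u i ⬝ᵥ u' j = if i = j then 1 else 0) ∧
      (∀ i, Matrix.vecMul (u i) A.D = 0) ∧ (∀ i, Matrix.mulVec A.D (u' i) = 0) ∧
      (∀ i s, A.deg s ≠ l → u i s = 0) ∧ (∀ i s, A.deg s ≠ l → u' i s = 0) := by
  classical
  set e := prj A l with he
  have hee : e * e = e := prj_mul_prj A l
  -- incoming
  obtain ⟨n, a, X, X', Y, Y', ha, hX, hY, hM, hXe, heX, hYf, hfY⟩ :=
    exists_hsnf (A.D * e) 1 e (Matrix.one_mul _) (by rw [Matrix.mul_assoc, hee])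
      (Matrix.one_mul _) hee
  -- outgoing
  obtain ⟨m, b, X2, X2', Y2, Y2', hb, hX2, hY2, hM2, hXe2, heX2, hYf2, hfY2⟩ :=
    exists_hsnf (e * A.D) e 1 (by rw [← Matrix.mul_assoc, hee]) (Matrix.mul_one _)
      hee (Matrix.one_mul _)
  have hYD : Y * A.D = 0 := by
    apply diag_cancel ha
    have : Matrix.diagonal a * Y = X * (A.D * e) := by
      rw [hM, ← Matrix.mul_assoc, ← Matrix.mul_assoc, hX, Matrix.one_mul]
    rw [← Matrix.mul_assoc, this, Matrix.mul_assoc, D_mul_prj_mul_D, Matrix.mul_zero,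
      Matrix.mul_zero]
  have h2 : X2' * Matrix.diagonal b = e * A.D * Y2' := by
    rw [hM2, Matrix.mul_assoc, Matrix.mul_assoc, hY2, Matrix.mul_one]
  have hYX : Y * X2' = 0 := by
    apply diag_cancel' hb
    rw [Matrix.mul_assoc, h2, ← Matrix.mul_assoc, ← Matrix.mul_assoc, hYf, hYD, Matrix.zero_mul,
      Matrix.zero_mul]
  have hDX : A.D * X2' = 0 := by
    apply diag_cancel' hb
    rw [Matrix.mul_assoc, h2, ← Matrix.mul_assoc, ← Matrix.mul_assoc, D_mul_prj_mul_D,
      Matrix.zero_mul, Matrix.zero_mul]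
  set P1 := X2' * X2 with hP1
  set P2 := Y' * Y with hP2
  have hP11 : P1 * P1 = P1 := by
    rw [hP1, Matrix.mul_assoc, ← Matrix.mul_assoc X2, hX2, Matrix.one_mul]
  have hP22 : P2 * P2 = P2 := by
    rw [hP2, Matrix.mul_assoc, ← Matrix.mul_assoc Y, hY, Matrix.one_mul]
  have hP21 : P2 * P1 = 0 := by
    rw [hP1, hP2, Matrix.mul_assoc, ← Matrix.mul_assoc Y, hYX, Matrix.zero_mul, Matrix.mul_zero]
  have heP1 : e * P1 = P1 := by rw [hP1, ← Matrix.mul_assoc, heX2]
  have hP1e : P1 * e = P1 := by rw [hP1, Matrix.mul_assoc, hXe2]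
  have heP2 : e * P2 = P2 := by rw [hP2, ← Matrix.mul_assoc, hfY]
  have hP2e : P2 * e = P2 := by rw [hP2, Matrix.mul_assoc, hYf]
  set Q := e - P1 - P2 + P1 * P2 with hQ
  have hQQ : Q * Q = Q := by
    have h3 : (e - P2) * (e - P1) = e - P1 - P2 := by
      rw [mul_sub, sub_mul, sub_mul, hee, heP1, hP2e, hP21]
      abel
    have h4 : Q = (e - P1) * (e - P2) := by
      rw [hQ, mul_sub, sub_mul, sub_mul, hee, heP2, hP1e]
      abel
    have h5 : (e - P1) * (e - P1 - P2) = Q := by
      rw [hQ, mul_sub, mul_sub, sub_mul, sub_mul, sub_mul, hee, heP2, hP1e, heP1, hP11]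
      abel
    have h6 : Q * (e - P2) = Q := by
      rw [h4, Matrix.mul_assoc]
      congr 1
      rw [mul_sub, sub_mul, sub_mul, hee, heP2, hP2e, hP22]
      abel
    calc Q * Q = (e - P1) * ((e - P2) * (e - P1)) * (e - P2) := by
          rw [h4]; simp only [Matrix.mul_assoc]
      _ = Q := by rw [h3, h5, h6]
  have hQD : Q * A.D = 0 := by
    have h3 : P2 * A.D = 0 := by rw [hP2, Matrix.mul_assoc, hYD, Matrix.mul_zero]
    have h4 : P1 * A.D = e * A.D := by
      rw [← hP1e, Matrix.mul_assoc, hM2, hP1]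
      rw [Matrix.mul_assoc, ← Matrix.mul_assoc X2, ← Matrix.mul_assoc X2, hX2, Matrix.one_mul,
        Matrix.mul_assoc]
    rw [hQ, add_mul, sub_mul, sub_mul, Matrix.mul_assoc P1, h3, h4, Matrix.mul_zero]
    abel
  have hDQ : A.D * Q = 0 := by
    have h3 : A.D * P1 = 0 := by rw [hP1, ← Matrix.mul_assoc, hDX, Matrix.zero_mul]
    have h4 : A.D * P2 = A.D * e := by
      rw [← heP2, ← Matrix.mul_assoc, hM, hP2]
      rw [Matrix.mul_assoc, ← Matrix.mul_assoc Y, hY, Matrix.one_mul]
    rw [hQ, mul_add, mul_sub, mul_sub, ← Matrix.mul_assoc A.D P1, h3, h4, Matrix.zero_mul]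
    abel
  have heQ : e * Q = Q := by
    rw [hQ, mul_add, mul_sub, mul_sub, hee, heP1, heP2, ← Matrix.mul_assoc, heP1]
  have hQe : Q * e = Q := by
    rw [hQ, add_mul, sub_mul, sub_mul, hee, hP1e, hP2e, Matrix.mul_assoc, hP2e]
  obtain ⟨r, c, X3, X3', Y3, Y3', hc, hX3, hY3, hM3, hXe3, heX3, hYf3, hfY3⟩ :=
    exists_hsnf Q e e heQ hQe hee hee
  have h7 : Matrix.diagonal c * Y3 = X3 * Q := by
    rw [hM3, ← Matrix.mul_assoc, ← Matrix.mul_assoc, hX3, Matrix.one_mul]
  have h8 : X3' * Matrix.diagonal c = Q * Y3' := by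
    rw [hM3, Matrix.mul_assoc, Matrix.mul_assoc, hY3, Matrix.mul_one]
  have h9 : Y3 * (X3' * Matrix.diagonal c) = 1 := by
    apply diag_cancel hc
    rw [← Matrix.mul_assoc, h7, h8, Matrix.mul_assoc, ← Matrix.mul_assoc Q, hQQ, hM3]
    rw [Matrix.mul_assoc, hY3, ← Matrix.mul_assoc, ← Matrix.mul_assoc, hX3, Matrix.one_mul]
  have h10 : (X3' * Matrix.diagonal c) * Y3 = Q := hM3.symm
  -- the rank
  have hr : r = A.betti ℝ l := by
    have t1 : Matrix.trace Q = (r : ℤ) := by
      rw [← h10, Matrix.trace_mul_comm, h9, Matrix.trace_one, Fintype.card_fin]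
    have t2 : Matrix.trace Q = (cells A l : ℤ) - m - n := by
      rw [hQ, Matrix.trace_add, Matrix.trace_sub, Matrix.trace_sub, Matrix.trace_mul_comm P1, hP21,
        Matrix.trace_zero, add_zero, hP1, hP2, Matrix.trace_mul_comm X2', hX2,
        Matrix.trace_mul_comm Y', hY, Matrix.trace_one, Matrix.trace_one, Fintype.card_fin,
        Fintype.card_fin, he, prj, Matrix.trace_diagonal]
      simp [cells, Fintype.card_subtype]
    have t3 := betti_eq (K := ℝ) A l
    have t4 : Fintype.card {j : Fin n // (a j : ℝ) ≠ 0} = n := by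
      rw [Fintype.card_of_subtype Finset.univ (by simpa using ha), Finset.card_univ,
        Fintype.card_fin]
    have t5 : Fintype.card {j : Fin m // (b j : ℝ) ≠ 0} = m := by
      rw [Fintype.card_of_subtype Finset.univ (by simpa using hb), Finset.card_univ,
        Fintype.card_fin]
    rw [hM, hM2, rank_of_snf ℝ a X X' Y Y' hX hY, rank_of_snf ℝ b X2 X2' Y2 Y2' hX2 hY2,
      t4, t5] at t3
    omega
  subst hr
  refine ⟨fun i => Y3 i, fun i s => (X3' * Matrix.diagonal c) s i, ?_, ?_, ?_, ?_, ?_⟩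
  · intro i j
    have := congrFun (congrFun h9 i) j
    rw [Matrix.mul_apply, Matrix.one_apply] at this
    exact this
  · intro i
    have h11 : Y3 * A.D = 0 := by
      have : Y3 = Y3 * Q := by
        rw [← h10, ← Matrix.mul_assoc, h9, Matrix.one_mul]
      rw [this, Matrix.mul_assoc, hQD, Matrix.mul_zero]
    exact congrFun h11 i
  · intro i
    have h11 : A.D * (X3' * Matrix.diagonal c) = 0 := by
      rw [h8, ← Matrix.mul_assoc, hDQ, Matrix.zero_mul]
    ext s
    exact congrFun (congrFun h11 s) i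
  · exact fun i s hs => supp_row hYf3 i s hs
  · intro i s hs
    have : e * (X3' * Matrix.diagonal c) = X3' * Matrix.diagonal c := by
      rw [← Matrix.mul_assoc, heX3]
    exact supp_col this i s hs

end Pool.H16.L2
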