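import Pool.Agent.H16.L2.TensPT

/-!
Torsion of a tensor product contains a power of the torsion of one factor.
-/

set_option autoImplicit false

open scoped BigOperators
open Matrix Pool.H3.L2

noncomputable section

namespace Pool.H16.L2

section contr

variable {S T : Type} [Fintype S] [Fintype T] [DecidableEq S] [DecidableEq T] {deg : S → ℕ}
  {deg' : T → ℕ}

/-- Contraction of a tensor with a functional on the first factor. -/
def contr (u : S → ℤ) (z : S × T → ℤ) : T → ℤ := fun t => ∑ s, u s * z (s, t)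

omit [Fintype T] [DecidableEq S] [DecidableEq T] in
theorem contr_add (u : S → ℤ) (z z' : S × T → ℤ) : contr u (z + z') = contr u z + contr u z' := by
  ext t
  simp [contr, mul_add, Finset.sum_add_distrib]

omit [Fintype T] [DecidableEq S] [DecidableEq T] in
theorem contr_sum {ι : Type} [Fintype ι] (u : S → ℤ) (z : ι → S × T → ℤ) :
    contr u (∑ i, z i) = ∑ i, contr u (z i) := by
  ext t
  simp only [contr, Finset.sum_apply, Finset.mul_sum]
  rw [Finset.sum_comm]

omit [Fintype T] [DecidableEq S] [DecidableEq T] in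
theorem contr_tv (u v : S → ℤ) (w : T → ℤ) : contr u (tv v w) = (v ⬝ᵥ u) • w := by
  ext t
  simp only [contr, tv, dotProduct, Pi.smul_apply, smul_eq_mul, Finset.sum_mul]
  refine Finset.sum_congr rfl fun s _ => ?_
  ring

theorem contr_vecMul (D : Matrix S S ℤ) (D' : Matrix T T ℤ) (u : S → ℤ) (l : ℕ)
    (hu : Matrix.mulVec D u = 0) (hdeg : ∀ s, deg s ≠ l → u s = 0) (z : S × T → ℤ) :
    contr u (Matrix.vecMul z (tD deg D D')) = (-1 : ℤ) ^ l • Matrix.vecMul (contr u z) D' := by
  have h1 : contr u (Matrix.vecMul z (lft T D)) = 0 := by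
    ext t
    simp only [contr, vecMul_lft, Finset.mul_sum]
    rw [Finset.sum_comm]
    refine Finset.sum_eq_zero fun s _ => ?_
    have h2 := congrFun hu s
    simp only [Matrix.mulVec, dotProduct, Pi.zero_apply] at h2
    calc ∑ i, u i * (z (s, t) * D s i) = z (s, t) * ∑ i, D s i * u i := by
          rw [Finset.mul_sum]
          exact Finset.sum_congr rfl fun i _ => by ring
      _ = 0 := by rw [h2, mul_zero]
  rw [tD, Matrix.vecMul_add, contr_add, h1, zero_add, ← Matrix.vecMul_vecMul]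
  ext t
  rw [Pi.smul_apply, smul_eq_mul]
  have e1 : contr u (Matrix.vecMul (Matrix.vecMul z (lft T (sgnM ℤ deg))) (rgt S D')) t =
      ∑ s, u s * ∑ x, (z (s, x) * (-1 : ℤ) ^ deg s) * D' x t := by
    simp only [contr, vecMul_rgt, vecMul_lft]
    refine Finset.sum_congr rfl fun s _ => ?_
    congr 1
    refine Finset.sum_congr rfl fun x _ => ?_
    congr 1
    rw [Finset.sum_eq_single s]
    · rw [sgnM, Matrix.diagonal_apply_eq]
    · intro y _ hy
      rw [sgnM, Matrix.diagonal_apply_ne _ hy, mul_zero]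
    · simp
  rw [e1]
  simp only [Matrix.vecMul, dotProduct, contr, Finset.mul_sum, Finset.sum_mul]
  rw [Finset.sum_comm]
  refine Finset.sum_congr rfl fun x _ => ?_
  refine Finset.sum_congr rfl fun s _ => ?_
  by_cases h : deg s = l
  · rw [h]
    ring
  · rw [hdeg s h]
    ring

omit [Fintype T] [DecidableEq S] [DecidableEq T] in
theorem contr_deg {l k m : ℕ} (hm : m = l + k) {u : S → ℤ} (hdeg : ∀ s, deg s ≠ l → u s = 0)
    {z : S × T → ℤ} (hz : ∀ s, deg s.1 + deg' s.2 ≠ m → z s = 0) (t : T) (ht : deg' t ≠ k) :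
    contr u z t = 0 := by
  refine Finset.sum_eq_zero fun s _ => ?_
  by_cases h : deg s = l
  · rw [hz (s, t) (by simp only; omega), mul_zero]
  · rw [hdeg s h, zero_mul]

end contr

/-- The torsion of `H_{l+k}(A ⊗ B)` contains `Tors H_k(B) ^ b_l(A)`. -/
theorem torsOrd_tens_free (A B : BCx ℤ) (l k : ℕ) :
    (B.torsOrd k) ^ (A.betti ℝ l) ≤ (A.tens B).torsOrd (l + k) := by
  classical
  have key := exists_free A l
  generalize A.betti ℝ l = b at key ⊢
  obtain ⟨u, u', huu, huD, hDu, hud, hud'⟩ := key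
  let clB : B.Zk k →ₗ[ℤ] B.Hk k := ((B.Bk k).submoduleOf (B.Zk k)).mkQ
  let clC : (A.tens B).Zk (l + k) →ₗ[ℤ] (A.tens B).Hk (l + k) :=
    (((A.tens B).Bk (l + k)).submoduleOf ((A.tens B).Zk (l + k))).mkQ
  have hclB : Function.Surjective clB := Submodule.mkQ_surjective _
  choose rep hrep using hclB
  have hZ : ∀ (i : Fin b) (β : B.Zk k),
      (tv (u i) (β : B.S → ℤ) : (A.tens B).S → ℤ) ∈ (A.tens B).Zk (l + k) := by
    intro i β
    refine ⟨fun s hs => tv_deg (deg := A.deg) (deg' := B.deg) rfl (hud i) β.2.1 s hs, ?_⟩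
    have h1 : Matrix.vecMul (tv (u i) (β : B.S → ℤ)) (tD A.deg A.D B.D) = 0 := by
      rw [tv_vecMul_D, huD, β.2.2, tv_zero_left, tv_zero_right, add_zero]
    exact h1
  have htor : ∀ (i : Fin b) (c : Submodule.torsion ℤ (B.Hk k)),
      clC ⟨_, hZ i (rep c.1)⟩ ∈ Submodule.torsion ℤ ((A.tens B).Hk (l + k)) := by
    intro i c
    have h1 := c.2
    rw [Submodule.mem_torsion_iff] at h1
    obtain ⟨n, hn⟩ := h1
    have h2 : clB ((n : ℤ) • rep c.1) = 0 := by
      rw [map_smul, hrep]
      exact hn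
    change Submodule.Quotient.mk _ = _ at h2
    rw [Submodule.Quotient.mk_eq_zero] at h2
    obtain ⟨w, hw, hw'⟩ := h2
    rw [Submodule.mem_torsion_iff]
    refine ⟨n, ?_⟩
    change (n : ℤ) • clC ⟨_, hZ i (rep c.1)⟩ = 0
    rw [← map_smul]
    change Submodule.Quotient.mk _ = _
    rw [Submodule.Quotient.mk_eq_zero]
    refine ⟨(tv (u i) ((-1 : ℤ) ^ l • w) : A.S × B.S → ℤ), ?_, ?_⟩
    · intro s hs
      refine tv_deg (deg := A.deg) (deg' := B.deg) (by omega : l + k + 1 = l + (k + 1)) (hud i)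
        ?_ s hs
      intro t ht
      rw [Pi.smul_apply, hw t ht, smul_zero]
    · have h3 : Matrix.vecMul (tv (u i) ((-1 : ℤ) ^ l • w)) (tD A.deg A.D B.D) =
          (n : ℤ) • tv (u i) (rep c.1 : B.S → ℤ) := by
        rw [tv_vecMul_D, huD, tv_zero_left, zero_add, vecMul_sgn (hud i), Matrix.smul_vecMul, hw',
          tv_smul_left, tv_smul_right, smul_smul, ← mul_pow]
        simp only [mul_neg, mul_one, neg_neg, one_pow, one_smul]
        exact tv_smul_right _ _ _
      exact h3
  let F : (Fin b → Submodule.torsion ℤ (B.Hk k)) →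
      Submodule.torsion ℤ ((A.tens B).Hk (l + k)) := fun c =>
    ∑ i, (⟨clC ⟨_, hZ i (rep (c i).1)⟩, htor i (c i)⟩ :
      Submodule.torsion ℤ ((A.tens B).Hk (l + k)))
  have hF : Function.Injective F := by
    intro c d hcd
    have h1 : clC (∑ i, ((⟨_, hZ i (rep (c i).1)⟩ : (A.tens B).Zk (l + k)) -
        ⟨_, hZ i (rep (d i).1)⟩)) = 0 := by
      have h2 := congrArg (fun z : Submodule.torsion ℤ ((A.tens B).Hk (l + k)) =>
        (z : (A.tens B).Hk (l + k))) hcd
      simp only [F, Submodule.coe_sum] at h2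
      simp only [Finset.sum_sub_distrib, map_sub, map_sum]
      rw [h2, sub_self]
    change Submodule.Quotient.mk _ = _ at h1
    rw [Submodule.Quotient.mk_eq_zero] at h1
    obtain ⟨w, hw, hw'⟩ := h1
    simp only [Submodule.coe_subtype, Submodule.coe_sum, Submodule.coe_sub] at hw'
    have hw2 : Matrix.vecMul (w : A.S × B.S → ℤ) (tD A.deg A.D B.D) =
        ∑ i, (tv (u i) (rep (c i).1 : B.S → ℤ) - tv (u i) (rep (d i).1 : B.S → ℤ)) := hw'
    funext j
    apply Subtype.ext
    have h3 := (contr_vecMul A.D B.D (u' j) l (hDu j) (hud' j) w).symm.trans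
      (congrArg (contr (u' j)) hw2)
    rw [contr_sum] at h3
    have h4 : ∀ i, contr (u' j) (tv (u i) (rep (c i).1 : B.S → ℤ) -
        tv (u i) (rep (d i).1 : B.S → ℤ)) =
        if i = j then (rep (c i).1 : B.S → ℤ) - (rep (d i).1 : B.S → ℤ) else 0 := by
      intro i
      have h5 : tv (u i) (rep (c i).1 : B.S → ℤ) - tv (u i) (rep (d i).1 : B.S → ℤ) =
          tv (u i) ((rep (c i).1 : B.S → ℤ) - (rep (d i).1 : B.S → ℤ)) := by
        ext s
        simp [tv, mul_sub]
      rw [h5, contr_tv, huu]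
      split_ifs <;> simp
    simp only [h4, Finset.sum_ite_eq', Finset.mem_univ, if_true] at h3
    rw [← hrep (c j).1, ← hrep (d j).1]
    change Submodule.Quotient.mk _ = Submodule.Quotient.mk _
    rw [Submodule.Quotient.eq]
    refine ⟨(-1 : ℤ) ^ l • contr (u' j) w, ?_, ?_⟩
    · intro t ht
      rw [Pi.smul_apply, contr_deg (deg := A.deg) (deg' := B.deg)
        (by omega : l + k + 1 = l + (k + 1)) (hud' j) hw t ht, smul_zero]
    · rw [Matrix.smul_vecMul, h3]
      rfl
  have h7 := Nat.card_le_card_of_injective F hF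
  rw [Nat.card_fun, Nat.card_eq_fintype_card (α := Fin b), Fintype.card_fin] at h7
  exact h7

end Pool.H16.L2
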