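import Pool.Agent.H3.L2.ESys
import Pool.Agent.H16.L2.TensFree

/-!
Module M6 of the project on MP_98dedd_gt: torsion and Betti numbers of integer based complexes,
in the form used by the assembly.
-/

set_option autoImplicit false

open scoped BigOperators
open Matrix Pool.H16.L2

noncomputable section

namespace Pool.H3.L2

/-- `A` retracts onto a direct sum of `t` complexes `ℤ → ℤ`, multiplication by `q`, in degrees
`k + 1`, `k` with `p ∣ q`, `q ≠ 0`. -/
def HasPT (p : ℕ) (A : BCx ℤ) (k t : ℕ) : Prop :=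
  ∃ (T : Type) (_ : Fintype T) (q : T → ℤ),
    Fintype.card T = t ∧ (∀ i, q i ≠ 0 ∧ (p : ℤ) ∣ q i) ∧ Nonempty (ESys A k T q)

theorem hasPT_iff (p : ℕ) (A : BCx ℤ) (k t : ℕ) :
    HasPT p A k t ↔ Pool.H16.L2.HasPT p A k t := by
  classical
  constructor
  · rintro ⟨T, _, q, hc, hq, ⟨E⟩⟩
    refine ⟨T, inferInstance, inferInstance, q, E.x, E.ξ, E.y, E.η, hc, hq, ?_⟩
    constructor
    · intro i j
      by_cases h : i = j
      · subst h; simp [E.ξx]
      · rw [if_neg h, E.ξx' j i (Ne.symm h)]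
    · intro i j
      by_cases h : i = j
      · subst h; simp [E.ηy]
      · rw [if_neg h, E.ηy' j i (Ne.symm h)]
    · exact E.xD
    · exact E.Dη
    · exact E.hx
    · exact E.hξ
    · exact E.hy
    · exact E.hη
  · rintro ⟨ι, _, _, q, x, x', y, y', hc, hq, h⟩
    refine ⟨ι, inferInstance, q, hc, hq, ⟨?_⟩⟩
    exact
      { x := x
        y := y
        ξ := x'
        η := y'
        hx := h.dx
        hy := h.dy
        hξ := h.dx'
        hη := h.dy'
        xD := h.xD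
        yD := h.yD A.D_D (fun i => (hq i).1)
        ξx := fun t => by rw [h.xx, if_pos rfl]
        ξx' := fun t t' ht => by rw [h.xx, if_neg (Ne.symm ht)]
        ηy := fun t => by rw [h.yy, if_pos rfl]
        ηy' := fun t t' ht => by rw [h.yy, if_neg (Ne.symm ht)]
        Dη := h.Dy
        Dξ := h.Dx A.D_D (fun i => (hq i).1) }

theorem torsOrd_pos (A : BCx ℤ) (k : ℕ) : 0 < A.torsOrd k := Pool.H16.L2.torsOrd_pos A k

theorem HasPT.le {p : ℕ} {A : BCx ℤ} {k t : ℕ} (h : HasPT p A k t) : p ^ t ≤ A.torsOrd k :=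
  ((hasPT_iff p A k t).1 h).le_torsOrd

theorem HasPT.low {p : ℕ} {A B : BCx ℤ} {i j t t' : ℕ} (hA : HasPT p A i t)
    (hB : HasPT p B j t') : HasPT p (A.tens B) (i + j) (t * t') :=
  (hasPT_iff _ _ _ _).2 (((hasPT_iff _ _ _ _).1 hA).tens ((hasPT_iff _ _ _ _).1 hB)).1

theorem HasPT.up {p : ℕ} {A B : BCx ℤ} {i j t t' : ℕ} (hA : HasPT p A i t)
    (hB : HasPT p B j t') : HasPT p (A.tens B) (i + j + 1) (t * t') :=
  (hasPT_iff _ _ _ _).2 (((hasPT_iff _ _ _ _).1 hA).tens ((hasPT_iff _ _ _ _).1 hB)).2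

theorem exists_tf (A : BCx ℤ) (p : ℕ) [Fact p.Prime] :
    ∃ tf : ℕ → ℕ, (∀ k, HasPT p A k (tf k)) ∧ A.betti (ZMod p) 0 = A.betti ℝ 0 + tf 0 ∧
      ∀ k, A.betti (ZMod p) (k + 1) = A.betti ℝ (k + 1) + tf (k + 1) + tf k := by
  obtain ⟨tf, h1, h2, h3⟩ := Pool.H16.L2.exists_tf A p
  exact ⟨tf, fun k => (hasPT_iff _ _ _ _).2 (h1 k), h3, h2⟩

theorem torsOrd_tens_free (A B : BCx ℤ) (l k : ℕ) :
    (B.torsOrd k) ^ (A.betti ℝ l) ≤ (A.tens B).torsOrd (l + k) :=
  Pool.H16.L2.torsOrd_tens_free A B l k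

end Pool.H3.L2
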