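import Pool.Agent.H16.L2.Betti

/-!
Elementary torsion summands of integer based complexes, free summands, and their Betti numbers.
-/

set_option autoImplicit false

open scoped BigOperators
open Matrix Pool.H3.L2

noncomputable section

namespace Pool.H16.L2

/-- The families `x`, `y` span a direct sum of complexes `ℤ → ℤ`, multiplication by `q i`, in
degrees `k + 1`, `k`, and `x'`, `y'` give a retraction of the complex `A` onto it. -/
structure IsPT {S : Type} [Fintype S] (deg : S → ℕ) (D : Matrix S S ℤ) (k : ℕ) {ι : Type}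
    [DecidableEq ι] (q : ι → ℤ) (x x' y y' : ι → S → ℤ) : Prop where
  xx : ∀ i j, x i ⬝ᵥ x' j = if i = j then 1 else 0
  yy : ∀ i j, y i ⬝ᵥ y' j = if i = j then 1 else 0
  xD : ∀ i, Matrix.vecMul (x i) D = q i • y i
  Dy : ∀ i, Matrix.mulVec D (y' i) = q i • x' i
  dx : ∀ i s, deg s ≠ k + 1 → x i s = 0
  dx' : ∀ i s, deg s ≠ k + 1 → x' i s = 0
  dy : ∀ i s, deg s ≠ k → y i s = 0
  dy' : ∀ i s, deg s ≠ k → y' i s = 0

/-- `A` retracts onto a direct sum of `t` complexes `ℤ → ℤ`, multiplication by `q`, in degrees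
`k + 1`, `k` with `p ∣ q`, `q ≠ 0`. -/
def HasPT (p : ℕ) (A : BCx ℤ) (k t : ℕ) : Prop :=
  ∃ (ι : Type) (_ : Fintype ι) (_ : DecidableEq ι) (q : ι → ℤ) (x x' y y' : ι → A.S → ℤ),
    Fintype.card ι = t ∧ (∀ i, q i ≠ 0 ∧ (p : ℤ) ∣ q i) ∧ IsPT A.deg A.D k q x x' y y'

theorem smul_cancel {S : Type} {q : ℤ} (hq : q ≠ 0) {v : S → ℤ} (h : q • v = 0) : v = 0 := by
  ext s
  have := congrFun h s
  simp only [Pi.smul_apply, smul_eq_mul, Pi.zero_apply, mul_eq_zero, hq, false_or] at this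
  exact this

theorem dot_deg {S : Type} [Fintype S] {deg : S → ℕ} {k l : ℕ} (hkl : k ≠ l) {v w : S → ℤ}
    (hv : ∀ s, deg s ≠ k → v s = 0) (hw : ∀ s, deg s ≠ l → w s = 0) : v ⬝ᵥ w = 0 := by
  refine Finset.sum_eq_zero fun s _ => ?_
  by_cases h : deg s = k
  · rw [hw s (by omega), mul_zero]
  · rw [hv s h, zero_mul]

namespace IsPT

variable {S : Type} [Fintype S] {deg : S → ℕ} {D : Matrix S S ℤ} {k : ℕ} {ι : Type}
  [DecidableEq ι] {q : ι → ℤ} {x x' y y' : ι → S → ℤ}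

theorem yD (h : IsPT deg D k q x x' y y') (hD : D * D = 0) (hq : ∀ i, q i ≠ 0) (i : ι) :
    Matrix.vecMul (y i) D = 0 := by
  apply smul_cancel (hq i)
  rw [← Matrix.smul_vecMul, ← h.xD, Matrix.vecMul_vecMul, hD, Matrix.vecMul_zero]

theorem Dx (h : IsPT deg D k q x x' y y') (hD : D * D = 0) (hq : ∀ i, q i ≠ 0) (i : ι) :
    Matrix.mulVec D (x' i) = 0 := by
  apply smul_cancel (hq i)
  rw [← Matrix.mulVec_smul, ← h.Dy, Matrix.mulVec_mulVec, hD, Matrix.zero_mulVec]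

theorem xy' (h : IsPT deg D k q x x' y y') (i j : ι) : x i ⬝ᵥ y' j = 0 :=
  dot_deg (by omega) (h.dx i) (h.dy' j)

theorem yx' (h : IsPT deg D k q x x' y y') (i j : ι) : y i ⬝ᵥ x' j = 0 :=
  dot_deg (by omega) (h.dy i) (h.dx' j)

end IsPT

instance finite_Hk (A : BCx ℤ) (k : ℕ) : Module.Finite ℤ (A.Hk k) := by
  unfold BCx.Hk
  infer_instance

instance finite_torsion (A : BCx ℤ) (k : ℕ) : Finite (Submodule.torsion ℤ (A.Hk k)) :=
  Module.finite_of_fg_torsion _ (Submodule.torsion_isTorsion)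

theorem torsOrd_pos (A : BCx ℤ) (k : ℕ) : 0 < A.torsOrd k := Nat.card_pos

/-- `p ^ t ≤ torsOrd`. -/
theorem HasPT.le_torsOrd {p : ℕ} {A : BCx ℤ} {k t : ℕ} (h : HasPT p A k t) :
    p ^ t ≤ A.torsOrd k := by
  obtain ⟨ι, _, _, q, x, x', y, y', hc, hq, h⟩ := h
  have hyZ : ∀ i, y i ∈ A.Zk k := fun i => ⟨h.dy i, h.yD A.D_D (fun i => (hq i).1) i⟩
  let cl : A.Zk k →ₗ[ℤ] A.Hk k := ((A.Bk k).submoduleOf (A.Zk k)).mkQ
  have hy : ∀ i, cl ⟨y i, hyZ i⟩ ∈ Submodule.torsion ℤ (A.Hk k) := by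
    intro i
    rw [Submodule.mem_torsion_iff]
    refine ⟨⟨q i, mem_nonZeroDivisors_of_ne_zero (hq i).1⟩, ?_⟩
    change q i • cl ⟨y i, hyZ i⟩ = 0
    rw [← map_smul]
    change Submodule.Quotient.mk _ = _
    rw [Submodule.Quotient.mk_eq_zero]
    exact ⟨x i, h.dx i, h.xD i⟩
  let f : (ι → Fin p) → Submodule.torsion ℤ (A.Hk k) := fun c =>
    ∑ i, ((c i : ℕ) : ℤ) • (⟨cl ⟨y i, hyZ i⟩, hy i⟩ : Submodule.torsion ℤ (A.Hk k))
  have hf : Function.Injective f := by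
    intro c d hcd
    have h1 : cl (∑ i, (((c i : ℕ) : ℤ) - ((d i : ℕ) : ℤ)) • (⟨y i, hyZ i⟩ : A.Zk k)) = 0 := by
      have h2 := congrArg (fun z : Submodule.torsion ℤ (A.Hk k) => (z : A.Hk k)) hcd
      simp only [f, Submodule.coe_sum, Submodule.coe_smul] at h2
      simp only [sub_smul, Finset.sum_sub_distrib, map_sub, map_sum, map_smul]
      rw [h2, sub_self]
    change Submodule.Quotient.mk _ = _ at h1
    rw [Submodule.Quotient.mk_eq_zero] at h1
    obtain ⟨w, hw, hw'⟩ := h1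
    simp only [Submodule.coe_subtype, Submodule.coe_sum, Submodule.coe_smul] at hw'
    ext j
    have h3 := congrArg (fun v => v ⬝ᵥ y' j) hw'
    simp only [sum_dotProduct, smul_dotProduct, h.yy, smul_eq_mul, mul_ite, mul_one, mul_zero,
      Finset.sum_ite_eq', Finset.mem_univ, if_true] at h3
    rw [← Matrix.dotProduct_mulVec, h.Dy, dotProduct_smul, smul_eq_mul] at h3
    have h4 : (p : ℤ) ∣ ((c j : ℕ) : ℤ) - ((d j : ℕ) : ℤ) := by
      rw [← h3]
      exact (hq j).2.mul_right _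
    have h5 : ((d j : ℕ) : ℤ) ≡ ((c j : ℕ) : ℤ) [ZMOD (p : ℤ)] := Int.modEq_iff_dvd.2 h4
    have h6 : (d j : ℕ) % p = (c j : ℕ) % p := Int.natCast_modEq_iff.1 h5
    rw [Nat.mod_eq_of_lt (c j).2, Nat.mod_eq_of_lt (d j).2] at h6
    exact h6.symm
  have h7 := Nat.card_le_card_of_injective f hf
  rw [Nat.card_eq_fintype_card, Fintype.card_fun, Fintype.card_fin, hc] at h7
  exact h7

end Pool.H16.L2
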