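import Pool.Agent.H16.L2.Exist

/-!
Kuenneth formula for elementary torsion summands.
-/

set_option autoImplicit false

open scoped BigOperators
open Matrix Pool.H3.L2

noncomputable section

namespace Pool.H16.L2

/-- Pure tensors. -/
def tv {S T : Type} (v : S → ℤ) (w : T → ℤ) : S × T → ℤ := fun s => v s.1 * w s.2

section tv

variable {S S' T T' : Type} [Fintype S] [Fintype T] [Fintype S'] [Fintype T']
  [DecidableEq S] [DecidableEq T]

omit [DecidableEq S] [DecidableEq T] [Fintype S'] [Fintype T'] in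
theorem tv_dot (v v' : S → ℤ) (w w' : T → ℤ) : tv v w ⬝ᵥ tv v' w' = (v ⬝ᵥ v') * (w ⬝ᵥ w') := by
  simp only [dotProduct, tv, Fintype.sum_prod_type, Finset.sum_mul_sum]
  refine Finset.sum_congr rfl fun s _ => Finset.sum_congr rfl fun t _ => ?_
  ring

omit [Fintype S'] [DecidableEq S] [Fintype T'] in
theorem vecMul_lft (z : S × T → ℤ) (M : Matrix S S' ℤ) (s : S') (t : T) :
    Matrix.vecMul z (lft T M) (s, t) = ∑ x, z (x, t) * M x s := by
  simp only [Matrix.vecMul, dotProduct, lft, Matrix.of_apply, Fintype.sum_prod_type]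
  refine Finset.sum_congr rfl fun x _ => ?_
  rw [Finset.sum_eq_single t]
  · simp
  · intro y _ hy
    simp [hy]
  · simp

omit [Fintype S'] [DecidableEq T] [Fintype T'] in
theorem vecMul_rgt (z : S × T → ℤ) (M : Matrix T T' ℤ) (s : S) (t : T') :
    Matrix.vecMul z (rgt S M) (s, t) = ∑ x, z (s, x) * M x t := by
  simp only [Matrix.vecMul, dotProduct, rgt, Matrix.of_apply, Fintype.sum_prod_type]
  rw [Finset.sum_eq_single s]
  · simp
  · intro y _ hy
    simp [hy]
  · simp

omit [Fintype S'] [DecidableEq S] [Fintype T'] in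
theorem tv_vecMul_lft (v : S → ℤ) (w : T → ℤ) (M : Matrix S S' ℤ) :
    Matrix.vecMul (tv v w) (lft T M) = tv (Matrix.vecMul v M) w := by
  ext ⟨s, t⟩
  rw [vecMul_lft]
  simp only [tv, Matrix.vecMul, dotProduct, Finset.sum_mul]
  refine Finset.sum_congr rfl fun x _ => ?_
  ring

omit [Fintype S'] [DecidableEq T] [Fintype T'] in
theorem tv_vecMul_rgt (v : S → ℤ) (w : T → ℤ) (M : Matrix T T' ℤ) :
    Matrix.vecMul (tv v w) (rgt S M) = tv v (Matrix.vecMul w M) := by
  ext ⟨s, t⟩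
  rw [vecMul_rgt]
  simp only [tv, Matrix.vecMul, dotProduct, Finset.mul_sum]
  refine Finset.sum_congr rfl fun x _ => ?_
  ring

omit [DecidableEq S] [Fintype T'] [Fintype S] in
theorem lft_mulVec_tv (v : S' → ℤ) (w : T → ℤ) (M : Matrix S S' ℤ) :
    Matrix.mulVec (lft T M) (tv v w) = tv (Matrix.mulVec M v) w := by
  ext ⟨s, t⟩
  simp only [Matrix.mulVec, dotProduct, lft, Matrix.of_apply, Fintype.sum_prod_type, tv,
    Finset.sum_mul]
  refine Finset.sum_congr rfl fun x _ => ?_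
  rw [Finset.sum_eq_single t]
  · simp [mul_assoc]
  · intro y _ hy
    simp [Ne.symm hy]
  · simp

omit [DecidableEq T] [Fintype S'] [Fintype T] in
theorem rgt_mulVec_tv (v : S → ℤ) (w : T' → ℤ) (M : Matrix T T' ℤ) :
    Matrix.mulVec (rgt S M) (tv v w) = tv v (Matrix.mulVec M w) := by
  ext ⟨s, t⟩
  simp only [Matrix.mulVec, dotProduct, rgt, Matrix.of_apply, Fintype.sum_prod_type, tv,
    Finset.mul_sum]
  rw [Finset.sum_eq_single s]
  · refine Finset.sum_congr rfl fun x _ => ?_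
    simp only [if_true]
    ring
  · intro y _ hy
    simp [Ne.symm hy]
  · simp

end tv

/-- The differential of a tensor product, as a matrix on the product index set. -/
def tD {S T : Type} [Fintype S] [Fintype T] [DecidableEq S] [DecidableEq T] (deg : S → ℕ)
    (D : Matrix S S ℤ) (D' : Matrix T T ℤ) : Matrix (S × T) (S × T) ℤ :=
  lft T D + lft T (sgnM ℤ deg) * rgt S D'

section raw

variable {S T : Type} [Fintype S] [Fintype T] [DecidableEq S] [DecidableEq T] {deg : S → ℕ}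
  {deg' : T → ℕ}

theorem tv_vecMul_D (D : Matrix S S ℤ) (D' : Matrix T T ℤ) (v : S → ℤ) (w : T → ℤ) :
    Matrix.vecMul (tv v w) (tD deg D D') =
      tv (Matrix.vecMul v D) w +
        tv (Matrix.vecMul v (sgnM ℤ deg)) (Matrix.vecMul w D') := by
  rw [tD, Matrix.vecMul_add, ← Matrix.vecMul_vecMul, tv_vecMul_lft, tv_vecMul_lft,
    tv_vecMul_rgt]

theorem D_mulVec_tv (D : Matrix S S ℤ) (D' : Matrix T T ℤ) (v : S → ℤ) (w : T → ℤ) :
    Matrix.mulVec (tD deg D D') (tv v w) =
      tv (Matrix.mulVec D v) w +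
        tv (Matrix.mulVec (sgnM ℤ deg) v) (Matrix.mulVec D' w) := by
  rw [tD, Matrix.add_mulVec, ← Matrix.mulVec_mulVec, lft_mulVec_tv, rgt_mulVec_tv,
    lft_mulVec_tv]

theorem vecMul_sgn {k : ℕ} {v : S → ℤ} (hv : ∀ s, deg s ≠ k → v s = 0) :
    Matrix.vecMul v (sgnM ℤ deg) = (-1 : ℤ) ^ k • v := by
  ext s
  rw [sgnM, Matrix.vecMul_diagonal]
  by_cases h : deg s = k
  · simp [h, mul_comm]
  · simp [hv s h]

theorem sgn_mulVec {k : ℕ} {v : S → ℤ} (hv : ∀ s, deg s ≠ k → v s = 0) :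
    Matrix.mulVec (sgnM ℤ deg) v = (-1 : ℤ) ^ k • v := by
  ext s
  rw [sgnM, Matrix.mulVec_diagonal]
  by_cases h : deg s = k
  · simp [h]
  · simp [hv s h]

omit [Fintype S] [Fintype T] [DecidableEq S] [DecidableEq T] in
theorem tv_deg {k l m : ℕ} (hm : m = k + l) {v : S → ℤ} {w : T → ℤ}
    (hv : ∀ s, deg s ≠ k → v s = 0) (hw : ∀ s, deg' s ≠ l → w s = 0)
    (s : S × T) (hs : deg s.1 + deg' s.2 ≠ m) : tv v w s = 0 := by
  by_cases h : deg s.1 = k
  · have h2 : deg' s.2 ≠ l := by omega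
    simp [tv, hw _ h2]
  · simp [tv, hv _ h]

end raw

@[simp] theorem tv_zero_left {S T : Type} (w : T → ℤ) : tv (0 : S → ℤ) w = 0 := by
  ext s; simp [tv]

@[simp] theorem tv_zero_right {S T : Type} (v : S → ℤ) : tv v (0 : T → ℤ) = 0 := by
  ext s; simp [tv]

theorem tv_smul_left {S T : Type} (c : ℤ) (v : S → ℤ) (w : T → ℤ) :
    tv (c • v) w = c • tv v w := by
  ext s; simp [tv, mul_assoc]

theorem tv_smul_right {S T : Type} (c : ℤ) (v : S → ℤ) (w : T → ℤ) :
    tv v (c • w) = c • tv v w := by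
  ext s; simp [tv]; ring

/-- Kuenneth formula for elementary torsion summands. -/
theorem IsPT.tens {S T : Type} [Fintype S] [Fintype T] [DecidableEq S] [DecidableEq T]
    {deg : S → ℕ} {deg' : T → ℕ} {D : Matrix S S ℤ} {D' : Matrix T T ℤ} (hDD : D * D = 0)
    (hDD' : D' * D' = 0) {ι κ : Type} [DecidableEq ι] [DecidableEq κ] {q : ι → ℤ} {r : κ → ℤ}
    {x x' y y' : ι → S → ℤ} {z z' w w' : κ → T → ℤ} {p k l : ℕ}
    (hq : ∀ i, q i ≠ 0 ∧ (p : ℤ) ∣ q i) (hr : ∀ i, r i ≠ 0 ∧ (p : ℤ) ∣ r i)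
    (h : IsPT deg D k q x x' y y') (h' : IsPT deg' D' l r z z' w w') :
    ∃ g : ι × κ → ℤ, (∀ i, g i ≠ 0 ∧ (p : ℤ) ∣ g i) ∧
      (∃ x x' y y', IsPT (fun s : S × T => deg s.1 + deg' s.2) (tD deg D D') (k + l) g x x' y y') ∧
      (∃ x x' y y', IsPT (fun s : S × T => deg s.1 + deg' s.2) (tD deg D D') (k + l + 1) g
        x x' y y') := by
  have hg : ∀ i : ι × κ, ∃ g α β u v : ℤ, g ≠ 0 ∧ (p : ℤ) ∣ g ∧ q i.1 = g * α ∧ r i.2 = g * β ∧
      u * α + v * β = 1 := by
    rintro ⟨i, j⟩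
    have h1 : (Int.gcd (q i) (r j) : ℤ) ≠ 0 := by
      rw [Ne, Int.natCast_eq_zero, Int.gcd_eq_zero_iff]
      exact fun h => (hq i).1 h.1
    obtain ⟨α, hα⟩ := Int.gcd_dvd_left (q i) (r j)
    obtain ⟨β, hβ⟩ := Int.gcd_dvd_right (q i) (r j)
    refine ⟨Int.gcd (q i) (r j), α, β, Int.gcdA (q i) (r j), Int.gcdB (q i) (r j), h1,
      Int.dvd_coe_gcd (hq i).2 (hr j).2, hα, hβ, ?_⟩
    have h2 := Int.gcd_eq_gcd_ab (q i) (r j)
    apply mul_left_cancel₀ h1
    calc (Int.gcd (q i) (r j) : ℤ) * (Int.gcdA (q i) (r j) * α + Int.gcdB (q i) (r j) * β)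
        = ((Int.gcd (q i) (r j) : ℤ) * α) * Int.gcdA (q i) (r j) +
          ((Int.gcd (q i) (r j) : ℤ) * β) * Int.gcdB (q i) (r j) := by ring
      _ = (Int.gcd (q i) (r j) : ℤ) * 1 := by rw [← hα, ← hβ, mul_one, ← h2]
  choose g α β u v hg0 hgp hgα hgβ huv using hg
  have hε : ((-1 : ℤ) ^ k) * ((-1) ^ k) = 1 := by
    rw [← mul_pow]; simp
  set ε : ℤ := (-1) ^ k with hεdef
  have hε1 : (-1 : ℤ) ^ (k + 1) = -ε := by rw [pow_succ]; ring
  have hqi : ∀ i, q i ≠ 0 := fun i => (hq i).1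
  have hri : ∀ i, r i ≠ 0 := fun i => (hr i).1
  have hxs : ∀ i, Matrix.vecMul (x i) (sgnM ℤ deg) = (-ε) • x i := fun i => by
    rw [vecMul_sgn (h.dx i), hε1]
  have hys : ∀ i, Matrix.vecMul (y i) (sgnM ℤ deg) = ε • y i := fun i => vecMul_sgn (h.dy i)
  have hxs' : ∀ i, Matrix.mulVec (sgnM ℤ deg) (x' i) = (-ε) • x' i := fun i => by
    rw [sgn_mulVec (h.dx' i), hε1]
  have hys' : ∀ i, Matrix.mulVec (sgnM ℤ deg) (y' i) = ε • y' i := fun i =>
    sgn_mulVec (h.dy' i)
  have hite : ∀ i j : ι × κ, (if i.1 = j.1 then (1 : ℤ) else 0) * (if i.2 = j.2 then 1 else 0) =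
      if i = j then 1 else 0 := by
    intro i j
    by_cases h1 : i.1 = j.1 <;> by_cases h2 : i.2 = j.2 <;> simp [h1, h2, Prod.ext_iff]
  refine ⟨g, fun i => ⟨hg0 i, hgp i⟩, ?_, ?_⟩
  · refine ⟨
      fun i => u i • tv (x i.1) (w i.2) + (ε * v i) • tv (y i.1) (z i.2),
      fun i => α i • tv (x' i.1) (w' i.2) + (ε * β i) • tv (y' i.1) (z' i.2),
      fun i => tv (y i.1) (w i.2), fun i => tv (y' i.1) (w' i.2), ?_⟩
    constructor
    · intro i j
      simp only [add_dotProduct, dotProduct_add, smul_dotProduct, dotProduct_smul, tv_dot,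
        h.xx, h.yy, h'.xx, h'.yy, h.xy', h.yx', h'.xy', h'.yx', smul_eq_mul, mul_zero,
        add_zero, zero_add, hite]
      by_cases hij : i = j
      · subst hij
        simp only [if_true, mul_one]
        linear_combination huv i + (v i * β i) * hε
      · simp [hij]
    · intro i j
      rw [tv_dot, h.yy, h'.yy, hite]
    · intro i
      rw [Matrix.add_vecMul, Matrix.smul_vecMul, Matrix.smul_vecMul, tv_vecMul_D, tv_vecMul_D,
        h.xD, h.yD hDD hqi, h'.xD, h'.yD hDD' hri, hys, hgα, hgβ]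
      simp only [tv_zero_left, tv_zero_right, tv_smul_left, tv_smul_right, add_zero, zero_add]
      ext s
      simp only [Pi.add_apply, Pi.smul_apply, smul_eq_mul]
      linear_combination (g i * tv (y i.1) (w i.2) s) * huv i +
        (g i * v i * β i * tv (y i.1) (w i.2) s) * hε
    · intro i
      rw [D_mulVec_tv, h.Dy, h'.Dy, hys', hgα, hgβ]
      simp only [tv_smul_left, tv_smul_right]
      ext s
      simp only [Pi.add_apply, Pi.smul_apply, smul_eq_mul]
      ring
    · intro i s hs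
      have h1 := tv_deg (deg := deg) (deg' := deg') (by omega : k + l + 1 = (k + 1) + l) (h.dx i.1)
        (h'.dy i.2) s hs
      have h2 := tv_deg (deg := deg) (deg' := deg') (by omega : k + l + 1 = k + (l + 1)) (h.dy i.1)
        (h'.dx i.2) s hs
      simp only [Pi.add_apply, Pi.smul_apply, h1, h2, smul_zero, add_zero]
    · intro i s hs
      have h1 := tv_deg (deg := deg) (deg' := deg') (by omega : k + l + 1 = (k + 1) + l) (h.dx' i.1)
        (h'.dy' i.2) s hs
      have h2 := tv_deg (deg := deg) (deg' := deg') (by omega : k + l + 1 = k + (l + 1)) (h.dy' i.1)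
        (h'.dx' i.2) s hs
      simp only [Pi.add_apply, Pi.smul_apply, h1, h2, smul_zero, add_zero]
    · intro i s hs
      exact tv_deg (deg := deg) (deg' := deg') rfl (h.dy i.1) (h'.dy i.2) s hs
    · intro i s hs
      exact tv_deg (deg := deg) (deg' := deg') rfl (h.dy' i.1) (h'.dy' i.2) s hs
  · refine ⟨fun i => tv (x i.1) (z i.2), fun i => tv (x' i.1) (z' i.2),
      fun i => α i • tv (y i.1) (z i.2) + (-(ε * β i)) • tv (x i.1) (w i.2),
      fun i => u i • tv (y' i.1) (z' i.2) + (-(ε * v i)) • tv (x' i.1) (w' i.2), ?_⟩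
    constructor
    · intro i j
      rw [tv_dot, h.xx, h'.xx, hite]
    · intro i j
      simp only [add_dotProduct, dotProduct_add, smul_dotProduct, dotProduct_smul, tv_dot,
        h.xx, h.yy, h'.xx, h'.yy, h.xy', h.yx', h'.xy', h'.yx', smul_eq_mul, mul_zero,
        add_zero, zero_add, hite]
      by_cases hij : i = j
      · subst hij
        simp only [if_true, mul_one]
        linear_combination huv i + (v i * β i) * hε
      · simp [hij]
    · intro i
      rw [tv_vecMul_D, h.xD, h'.xD, hxs, hgα, hgβ]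
      simp only [tv_smul_left, tv_smul_right]
      ext s
      simp only [Pi.add_apply, Pi.smul_apply, smul_eq_mul]
      ring
    · intro i
      rw [Matrix.mulVec_add, Matrix.mulVec_smul, Matrix.mulVec_smul, D_mulVec_tv, D_mulVec_tv,
        h.Dy, h.Dx hDD hqi, h'.Dy, h'.Dx hDD' hri, hxs', hgα, hgβ]
      simp only [tv_zero_left, tv_zero_right, tv_smul_left, tv_smul_right, add_zero, zero_add]
      ext s
      simp only [Pi.smul_apply, Pi.add_apply, smul_eq_mul]
      linear_combination (g i * tv (x' i.1) (z' i.2) s) * huv i +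
        (g i * v i * β i * tv (x' i.1) (z' i.2) s) * hε
    · intro i s hs
      exact tv_deg (deg := deg) (deg' := deg') (by omega) (h.dx i.1) (h'.dx i.2) s hs
    · intro i s hs
      exact tv_deg (deg := deg) (deg' := deg') (by omega) (h.dx' i.1) (h'.dx' i.2) s hs
    · intro i s hs
      have h1 := tv_deg (deg := deg) (deg' := deg') (by omega : k + l + 1 = (k + 1) + l) (h.dx i.1)
        (h'.dy i.2) s hs
      have h2 := tv_deg (deg := deg) (deg' := deg') (by omega : k + l + 1 = k + (l + 1)) (h.dy i.1)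
        (h'.dx i.2) s hs
      simp only [Pi.add_apply, Pi.smul_apply, h1, h2, smul_zero, add_zero]
    · intro i s hs
      have h1 := tv_deg (deg := deg) (deg' := deg') (by omega : k + l + 1 = (k + 1) + l) (h.dx' i.1)
        (h'.dy' i.2) s hs
      have h2 := tv_deg (deg := deg) (deg' := deg') (by omega : k + l + 1 = k + (l + 1)) (h.dy' i.1)
        (h'.dx' i.2) s hs
      simp only [Pi.add_apply, Pi.smul_apply, h1, h2, smul_zero, add_zero]

/-- Kuenneth formula for elementary torsion summands: degrees `k + l` (tensor) and `k + l + 1`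
(Tor). -/
theorem HasPT.tens {p : ℕ} {A B : BCx ℤ} {k l t t' : ℕ} (hA : HasPT p A k t)
    (hB : HasPT p B l t') :
    HasPT p (A.tens B) (k + l) (t * t') ∧ HasPT p (A.tens B) (k + l + 1) (t * t') := by
  obtain ⟨ι, _, _, q, x, x', y, y', hc, hq, h⟩ := hA
  obtain ⟨κ, _, _, r, z, z', w, w', hc', hr, h'⟩ := hB
  have hcard : Fintype.card (ι × κ) = t * t' := by rw [Fintype.card_prod, hc, hc']
  obtain ⟨g, hg, ⟨x1, x1', y1, y1', h1⟩, ⟨x2, x2', y2, y2', h2⟩⟩ :=
    IsPT.tens A.D_D B.D_D hq hr h h'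
  exact ⟨⟨ι × κ, inferInstance, inferInstance, g, x1, x1', y1, y1', hcard, hg, h1⟩,
    ⟨ι × κ, inferInstance, inferInstance, g, x2, x2', y2, y2', hcard, hg, h2⟩⟩

end Pool.H16.L2
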